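import Pool.Agent.Helper51K9.TI.Abs
import Pool.Agent.Helper51K9.TI.Delta
import Pool.Agent.Helper78K9.DS.Defs

/-!
# `K_2` of curves over number fields: regulators, L-functions, Beilinson's conjecture
-/

set_option autoImplicit false

namespace Pool.Agent.Helper78K9.BC

open Matrix Polynomial Filter Topology NumberField Pool.Agent.Helper51K9.TI

section lin

variable {M M' : Type} [AddCommGroup M] [Module ℚ M] [AddCommGroup M'] [Module ℚ M']

/-- the vectors `b i` are a basis of the rational vector space `S` -/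
def IsBasis (S : Set M) {N : ℕ} (b : Fin N → M) : Prop :=
  LinearIndependent ℚ b ∧ (Submodule.span ℚ (Set.range b) : Set M) = S

/-- `S` and `T` have the dimension `N` over `ℚ`, and the pairing `P` is nondegenerate -/
def IsPerfect (S : Set M) (T : Set M') (P : M → M' → ℝ) (N : ℕ) : Prop :=
  ∃ (b : Fin N → M) (e : Fin N → M'), IsBasis S b ∧ IsBasis T e ∧
    (Matrix.of fun i j => P (b i) (e j)).det ≠ 0

/-- `z` is the product of a nonzero rational number and the determinant of the pairing `P`, for all
bases of `S` and `T` with `N` elements -/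
def IsMulDet (S : Set M) (T : Set M') (P : M → M' → ℝ) (N : ℕ) (z : ℂ) : Prop :=
  ∀ (b : Fin N → M) (e : Fin N → M'), IsBasis S b → IsBasis T e →
    ∃ q : ℚ, q ≠ 0 ∧ z = (q : ℂ) * (((Matrix.of fun i j => P (b i) (e j)).det : ℝ) : ℂ)

end lin

/-- the rational vector space of dimension `2 d` -/
def Vec (d : ℕ) : Type := Fin (2 * d) → ℚ

instance (d : ℕ) : AddCommGroup (Vec d) := inferInstanceAs (AddCommGroup (Fin (2 * d) → ℚ))

instance (d : ℕ) : Module ℚ (Vec d) := inferInstanceAs (Module ℚ (Fin (2 * d) → ℚ))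

variable {A : Type} [Field A] [CharZero A]

/-- **The data of a curve `C` over a number field `k`, viewed over `ℚ`**, as far as they are used;
`A` is an algebraic closure of `ℚ` and `d = g [k : ℚ]`:

* `H^1` of `C` (of rank `2 d`) in the `λ`-adic realizations, with coefficients extended to algebraically
  closed fields, an inertia group and a geometric Frobenius element for every prime `p`;
* the space `H = H^2_M(C_A, ℚ(2))_ℤ`, the union of the integral parts of the motivic cohomology of
  the curves `C_K` over all number fields `K` (a subset of `K_2 ⊗ ℚ` of the function field), with the action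
  of the Galois group of `ℚ`; the elements fixed by the Galois group of `K` are those of
  `H^2_M(C_K, ℚ(2))_ℤ`;
* an embedding of `A` in `ℂ`, the complex conjugation `c`, and `H_1(C(ℂ), ℚ) = Vec d` (of rank `2 d`)
  with the involution `F_∞`, whose eigenspace for `-1` has the rank `d`;
* Beilinson's regulator `reg ξ v` for `ξ` in `H` and `v` in `H_1(C(ℂ), ℚ)`, for the embedding of
  `A`. -/
structure CurveData (A : Type) [Field A] [CharZero A] (d : ℕ) extends
    Realizations (A ≃ₐ[ℚ] A) ℚ (2 * d) Nat.Primes where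
  isFrob : ∀ p : Nat.Primes, Helper8K9.DG.IsInertiaFrobenius p.1 (inertia p) (frob p)
  norm_eq : ∀ p : Nat.Primes, norm p = p
  emb : A →+* ℂ
  c : A ≃ₐ[ℚ] A
  isConj : IsConj emb c
  H : Type
  [group : AddCommGroup H]
  [module : Module ℚ H]
  gal : (A ≃ₐ[ℚ] A) →* AddMonoid.End H
  smooth : ∀ ξ : H, ∃ K : IntermediateField ℚ A, FiniteDimensional ℚ K ∧
    ∀ γ ∈ K.fixingSubgroup, gal γ ξ = ξ
  Finf : Vec d →+ Vec d
  Finf_sq : ∀ v, Finf (Finf v) = v
  minus : ∃ e : Fin d → Vec d, IsBasis {v | Finf v = -v} e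
  reg : H →+ Vec d →+ ℝ
  reg_conj : ∀ ξ v, reg (gal c ξ) (Finf v) = - reg ξ v

attribute [instance] CurveData.group CurveData.module

/-- the embeddings of `K` -/
abbrev Emb (K : IntermediateField ℚ A) : Type := K →ₐ[ℚ] A

variable {d : ℕ} (X : CurveData A d)

/-- `H^2_M(C_K, ℚ(2))_ℤ`: an element is given by its conjugates, for the embeddings `τ` of `K` -/
def motivic (K : IntermediateField ℚ A) : Set (Emb K → X.H) :=
  {ξ | ∀ (γ : A ≃ₐ[ℚ] A) (τ : Emb K), ξ ((γ : A →ₐ[ℚ] A).comp τ) = X.gal γ (ξ τ)}

/-- `H_1(C_K(ℂ), ℚ)^-`: `C_K(ℂ)` is the disjoint union of copies of `C(ℂ)` for the embeddings `τ` of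
`K`, and `F_∞` maps the copy for `τ` to the one for `c ∘ τ` -/
def homology (K : IntermediateField ℚ A) : Set (Emb K → Vec d) :=
  {v | ∀ τ : Emb K, X.Finf (v τ) = - v ((X.c : A →ₐ[ℚ] A).comp τ)}

/-- the regulator pairing of `H^2_M(C_K, ℚ(2))_ℤ` and `H_1(C_K(ℂ), ℚ)^-`: the sum over the
embeddings -/
noncomputable def regulator (K : IntermediateField ℚ A) [FiniteDimensional ℚ K]
    (ξ : Emb K → X.H) (v : Emb K → Vec d) : ℝ :=
  ∑ τ, X.reg (ξ τ) (v τ)

open Classical in
/-- the permutation representation of the Galois group of `ℚ` on the embeddings of `K`: `H^1` of `C_K`,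
viewed over `ℚ`, is `H^1` of `C` times this representation -/
noncomputable def permRep (K : IntermediateField ℚ A) [FiniteDimensional ℚ K] :
    (A ≃ₐ[ℚ] A) →* Matrix (Emb K) (Emb K) ℚ where
  toFun := DS.permMatrix ℚ K
  map_one' := DS.permMatrix_one K
  map_mul' := DS.permMatrix_mul K

/-- **Q1 for `C_K`**: `H^2_M(C_K, ℚ(2))_ℤ` and `H_1(C_K(ℂ), ℚ)^-` have the dimension `g [kK : ℚ] =
d [K : ℚ]`, and the regulator pairing is nondegenerate -/
def Beilinson1 (K : IntermediateField ℚ A) [FiniteDimensional ℚ K] : Prop :=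
  IsPerfect (motivic X K) (homology X K) (regulator X K) (d * Module.finrank ℚ K)

open Classical in
/-- **Q2 for `C_K`**: the L-function of `C_K` exists (it is meromorphic in the complex plane, equal to
the Euler product and without zeros in a right half plane), at `s = 0` it has a zero of the exact order
`d [K : ℚ]`, and the leading coefficient is the product of a nonzero rational number and the determinant
of the regulator pairing, for all bases of the two spaces -/
def Beilinson2 (K : IntermediateField ℚ A) [FiniteDimensional ℚ K] : Prop :=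
  HasL X.toRealizations (permRep K) ∧
    ∀ L, IsLFunction X.toRealizations (permRep K) L → ∀ τ : ℚ →+* ℂ,
      meromorphicOrderAt (L τ) 0 = (d * Module.finrank ℚ K : ℕ) ∧
      IsMulDet (motivic X K) (homology X K) (regulator X K) (d * Module.finrank ℚ K)
        (meromorphicTrailingCoeffAt (L τ) 0)

/-- the prime number `l` splits completely in `K₀`: the decomposition groups of all the primes above `l`
fix `K₀` -/
def SplitsCompletely (l : ℕ) (K₀ : IntermediateField ℚ A) : Prop :=
  ∀ Q : Ideal (𝓞 A), Q.IsMaximal → (l : 𝓞 A) ∈ Q →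
    ∀ γ : A ≃ₐ[ℚ] A, (∀ x ∈ Q, γ • x ∈ Q) → γ ∈ K₀.fixingSubgroup

/-- `K₀` is a totally real abelian field with the Galois group `ℤ/p` or `(ℤ/p)²` -/
def IsSmall (p : ℕ) (K₀ : IntermediateField ℚ A) : Prop :=
  IsAbelianGalois ℚ K₀ ∧ IsTotallyReal K₀ ∧
    (Module.finrank ℚ K₀ = p ∨ Module.finrank ℚ K₀ = p ^ 2) ∧ ∀ g : K₀ ≃ₐ[ℚ] K₀, g ^ p = 1

end Pool.Agent.Helper78K9.BC
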