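import Pool.Agent.Helper78K9.BC.Def
import Pool.Agent.Helper78K9.BK.Fin

/-!
# Beilinson's conjecture for `K_2` of curves: two forms of the definitions
-/

set_option autoImplicit false
set_option linter.unusedSectionVars false

namespace Pool.Agent.Helper78K9.BC

open Matrix Polynomial Filter Topology NumberField Pool.Agent.Helper51K9.TI

section lin

variable {M : Type} [AddCommGroup M] [Module ℚ M] {M₀ : Submodule ℚ M}

theorem isBasis_of {N : ℕ} (b : Module.Basis (Fin N) ℚ M₀) :
    IsBasis (M₀ : Set M) (fun i => (b i : M)) := by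
  refine ⟨b.linearIndependent.map' M₀.subtype (Submodule.ker_subtype M₀), ?_⟩
  have h1 : Submodule.span ℚ (Set.range fun i => (b i : M)) = M₀ := by
    have h2 : (Set.range fun i => (b i : M)) = M₀.subtype '' Set.range b := by
      rw [← Set.range_comp]
      rfl
    rw [h2, Submodule.span_image, b.span_eq, Submodule.map_top, Submodule.range_subtype]
  rw [h1]

theorem exists_basis {N : ℕ} {b : Fin N → M} (h : IsBasis (M₀ : Set M) b) :
    ∃ b' : Module.Basis (Fin N) ℚ M₀, ∀ i, (b' i : M) = b i := by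
  obtain ⟨h1, h2⟩ := h
  have h3 : Submodule.span ℚ (Set.range b) = M₀ := SetLike.coe_injective h2
  refine ⟨(Module.Basis.span h1).map (LinearEquiv.ofEq _ _ h3), fun i => ?_⟩
  rw [Module.Basis.map_apply]
  change ((Module.Basis.span h1 i : Submodule.span ℚ (Set.range b)) : M) = b i
  rw [Module.Basis.span_apply]

end lin

variable {A : Type} [Field A] [CharZero A] [IsAlgClosed A] [Algebra.IsAlgebraic ℚ A] {d : ℕ}
  (X : CurveData A d)

/-- the eigenspace of `F_∞` -/
theorem finrank_minus : Module.finrank ℚ (LinearMap.ker (X.Finf.toRatLinearMap + 1)) = d := by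
  obtain ⟨e, he⟩ := X.minus
  have h1 : {v | X.Finf v = -v} = (LinearMap.ker (X.Finf.toRatLinearMap + 1) : Set _) := by
    ext v
    constructor
    · intro hv
      change X.Finf v + v = 0
      rw [show X.Finf v = -v from hv, neg_add_cancel]
    · intro hv
      exact eq_neg_of_add_eq_zero_left hv
  rw [h1] at he
  obtain ⟨e', -⟩ := exists_basis he
  rw [Module.finrank_eq_card_basis e', Fintype.card_fin]

/-- the data in the other form -/
noncomputable def toBK : BK.CurveData A d where
  toRealizations := X.toRealizations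
  isFrob := X.isFrob
  norm_eq := X.norm_eq
  emb := X.emb
  c := X.c
  isConj := X.isConj
  H := X.H
  gal :=
    { toFun := fun γ => AddMonoidHom.toRatLinearMap (X.gal γ)
      map_one' := by
        ext ξ
        change X.gal 1 ξ = ξ
        rw [map_one]
        rfl
      map_mul' := fun γ γ' => by
        ext ξ
        change X.gal (γ * γ') ξ = X.gal γ (X.gal γ' ξ)
        rw [map_mul]
        rfl }
  smooth := X.smooth
  Finf := X.Finf.toRatLinearMap
  Finf_sq := LinearMap.ext fun v => X.Finf_sq v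
  minus := finrank_minus X
  reg := AddMonoidHom.toRatLinearMap
    { toFun := fun ξ => (X.reg ξ).toRatLinearMap
      map_zero' := LinearMap.ext fun v => by
        change X.reg 0 v = 0
        rw [map_zero]
        rfl
      map_add' := fun ξ ξ' => LinearMap.ext fun v => by
        change X.reg (ξ + ξ') v = X.reg ξ v + X.reg ξ' v
        rw [map_add]
        rfl }
  reg_conj := X.reg_conj

variable (K : IntermediateField ℚ A) [FiniteDimensional ℚ K]

theorem motivic_eq : (BK.motivic (toBK X) K : Set (Emb K → (toBK X).H)) = motivic X K := rfl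

theorem homology_eq : (BK.homology (toBK X) K : Set (Emb K → (Fin (2 * d) → ℚ))) =
    homology X K := rfl

theorem gram_eq {N : ℕ} (b' : Module.Basis (Fin N) ℚ (BK.motivic (toBK X) K))
    (e' : Module.Basis (Fin N) ℚ (BK.homology (toBK X) K))
    {b₀ : Fin N → Emb K → X.H} {e₀ : Fin N → Emb K → (Fin (2 * d) → ℚ)}
    (hb : ∀ i, (b' i : Emb K → (toBK X).H) = b₀ i)
    (he : ∀ i, (e' i : Emb K → (Fin (2 * d) → ℚ)) = e₀ i) :
    BK.gram (BK.regulator (toBK X) K) b' e' =
      Matrix.of fun i j => regulator X K (b₀ i) (e₀ j) := by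
  ext i j
  change BK.pairAll (toBK X) (Emb K) (b' i) (e' j) = regulator X K (b₀ i) (e₀ j)
  rw [BK.pairAll_apply, ← hb, ← he]
  rfl

theorem b1_iff : BK.Beilinson1 (toBK X) K ↔ Beilinson1 X K := by
  constructor
  · rintro ⟨b, e, h⟩
    refine ⟨fun i => (b i).1, fun i => (e i).1, isBasis_of b, isBasis_of e, ?_⟩
    rwa [← gram_eq X K b e (fun _ => rfl) (fun _ => rfl)]
  · rintro ⟨b₀, e₀, hb, he, h⟩
    rw [← motivic_eq] at hb
    rw [← homology_eq] at he
    obtain ⟨b, hb'⟩ := exists_basis hb
    obtain ⟨e, he'⟩ := exists_basis he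
    refine ⟨b, e, ?_⟩
    rwa [gram_eq X K b e hb' he']

open Classical in
theorem b2_iff : BK.Beilinson2 (toBK X) K ↔ Beilinson2 X K := by
  constructor
  · rintro ⟨h, h'⟩
    refine ⟨h, fun L hL τ => ⟨(h' L hL τ).1, fun b₀ e₀ hb he => ?_⟩⟩
    rw [← motivic_eq] at hb
    rw [← homology_eq] at he
    obtain ⟨b, hb'⟩ := exists_basis hb
    obtain ⟨e, he'⟩ := exists_basis he
    obtain ⟨q, hq, h1⟩ := (h' L hL τ).2 b e
    refine ⟨q, hq, ?_⟩
    rw [← gram_eq X K b e hb' he']
    exact h1
  · rintro ⟨h, h'⟩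
    refine ⟨h, fun L hL τ => ⟨(h' L hL τ).1, fun b e => ?_⟩⟩
    obtain ⟨q, hq, h1⟩ := (h' L hL τ).2 (fun i => (b i).1) (fun i => (e i).1) (isBasis_of b)
      (isBasis_of e)
    refine ⟨q, hq, ?_⟩
    rw [gram_eq X K b e (fun _ => rfl) (fun _ => rfl)]
    exact h1

open Classical in
theorem bgood_iff : BK.BGood (toBK X) (permRep K) ↔ Beilinson1 X K ∧ Beilinson2 X K := by
  rw [← b1_iff, ← b2_iff]
  exact BK.bgood_iff (toBK X) K

end Pool.Agent.Helper78K9.BC
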