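import Pool.Agent.Helper78K9.BC.Desc
import Pool.Agent.Helper78K9.SP.Small
import Pool.Agent.Helper78K9.SP.Rela

/-!
# Beilinson's conjecture for `K_2` of curves: descent
-/

set_option autoImplicit false
set_option linter.unusedSectionVars false

namespace Pool.Agent.Helper78K9.BC

open Matrix Polynomial Filter Topology NumberField Pool.Agent.Helper51K9.TI

open Pool.Agent.R389 (Hyper ind_ind ind)

open Pool.Agent.Helper78K9.BK (BNice isFinite_permRep bgood_of_char)

variable {A : Type} [Field A] [CharZero A] [IsAlgClosed A] [Algebra.IsAlgebraic ℚ A] {d : ℕ}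

theorem _root_.Pool.Agent.Helper78K9.BK.BNice.mul (X : BK.CurveData A d)
    {f : (A ≃ₐ[ℚ] A) → ℚ} (h : BNice X f) {a : ℕ} (ha : a ≠ 0) :
    BNice X (fun γ => a * f γ) := by
  have h1 := BNice.list X (fun (_ : Unit) => f) (List.replicate a ()) (by simpa using ha)
    (fun _ _ => h)
  have h2 : (fun γ => ((List.replicate a ()).map fun _ => f γ).sum) =
      fun γ => (a : ℚ) * f γ := by
    funext γ
    rw [List.map_replicate, List.sum_replicate, nsmul_eq_mul]
  rwa [h2] at h1

variable (X : CurveData A d)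

/-- **(2)** -/
theorem small_descent (K' : IntermediateField ℚ A) [FiniteDimensional ℚ K'] (N : ℕ)
    (S : Finset ℕ) (hS : ∀ l ∈ S, l.Prime)
    (F₀ : IntermediateField ℚ A) [FiniteDimensional ℚ F₀] (hF₀ : K' ≤ F₀)
    (h : ∀ (p : ℕ) (K₀ : IntermediateField ℚ A) [FiniteDimensional ℚ K₀]
      [FiniteDimensional ℚ (K' ⊔ K₀ : IntermediateField ℚ A)], p.Prime → N ≤ p → IsSmall p K₀ →
      K₀ ⊓ F₀ = ⊥ → (∀ l ∈ S, SplitsCompletely l K₀) →
      Beilinson1 X (K' ⊔ K₀) ∧ Beilinson2 X (K' ⊔ K₀)) : Beilinson1 X K' ∧ Beilinson2 X K' := by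
  classical
  obtain ⟨p, q, a, c, hp, hq, hp2, hq2, hNp, hNq, ha, hc, hac⟩ := SP.exists_primes N
  -- the relation, for one prime
  have key : ∀ r : ℕ, r.Prime → r ≠ 2 → N ≤ r → ∃ T U : (A ≃ₐ[ℚ] A) → ℚ,
      BNice (toBK X) T ∧ BNice (toBK X) U ∧
      ∀ γ, (r : ℚ) * (permRep K' γ).trace + U γ = T γ := by
    intro r hr hr2 hNr
    have : NeZero r := ⟨hr.ne_zero⟩
    obtain ⟨π, hsurj, hπ, hdis, hπD⟩ := SP.exists_disjoint (SP.cycd (QA := A) S hS) r hr.pos F₀
    have hnice : ∀ V : Subgroup (DS.CC r), (V.index = r ∨ V.index = r ^ 2) →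
        BNice (toBK X) (fun γ => (permRep K' γ).trace * ind V (fun _ => (1 : ℚ)) (π γ)) := by
      intro V hV
      obtain ⟨K₀, h1, h2, h3, h4, h5, h6⟩ :=
        SP.exists_field K' F₀ hF₀ (S := S) hr hr2 hsurj hπ hdis hπD V hV
      exact ⟨(K' ⊔ K₀ : IntermediateField ℚ A) →ₐ[ℚ] A, inferInstance, inferInstance,
        permRep (K' ⊔ K₀), isFinite_permRep _, fun γ => h6 γ,
        (bgood_iff X _).2 (h r K₀ hr hNr h3 h4 h5)⟩
    refine ⟨fun γ => ((SP.lines (DS.CC r) r).toList.map fun V =>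
        (permRep K' γ).trace * ind V (fun _ => (1 : ℚ)) (π γ)).sum,
      fun γ => (permRep K' γ).trace * ind (⊥ : Subgroup (DS.CC r)) (fun _ => (1 : ℚ)) (π γ),
      ?_, ?_, fun γ => ?_⟩
    · refine BNice.list (toBK X) (fun V γ => (permRep K' γ).trace *
        ind V (fun _ => (1 : ℚ)) (π γ)) _ (SP.lines_ne_nil hr (fun g => SP.pow_eq_one_CC g)
          SP.card_CC) fun V hV => hnice V (Or.inl ?_)
      have h1 := SP.mem_lines.1 (Finset.mem_toList.1 hV)
      have h2 := V.card_mul_index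
      rw [h1, SP.card_CC, sq] at h2
      exact Nat.eq_of_mul_eq_mul_left hr.pos h2
    · exact hnice ⊥ (Or.inr (by rw [Subgroup.index_bot, SP.card_CC]))
    · beta_reduce
      rw [List.sum_map_mul_left, ← SP.rel hr (fun g => SP.pow_eq_one_CC g) SP.card_CC (π γ)]
      ring
  obtain ⟨T, U, hT, hU, h1⟩ := key p hp hp2 hNp
  obtain ⟨T', U', hT', hU', h2⟩ := key q hq hq2 hNq
  refine (bgood_iff X K').1 (bgood_of_char (toBK X) (permRep K') (isFinite_permRep K')
    ((hT.mul (toBK X) ha).add (toBK X) (hU'.mul (toBK X) hc))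
    ((hU.mul (toBK X) ha).add (toBK X) (hT'.mul (toBK X) hc)) fun γ => ?_)
  rw [← h1 γ, ← h2 γ]
  have h3 : (a : ℚ) * p = c * q + 1 := by exact_mod_cast hac
  linear_combination (-(permRep K' γ).trace) * h3

open Classical in
theorem trace_perm {G : Type} [Group G] [Finite G] {π : (A ≃ₐ[ℚ] A) →* G}
    (hsurj : Function.Surjective π) (V : Subgroup G) (K : IntermediateField ℚ A)
    [FiniteDimensional ℚ K] (hK : K.fixingSubgroup = V.comap π) (γ : A ≃ₐ[ℚ] A) :
    (permRep K γ).trace = ind V (fun _ => (1 : ℚ)) (π γ) :=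
  BK.trace_perm hsurj V K hK γ

/-- **(1)** -/
theorem relative_descent (K' F : IntermediateField ℚ A) [FiniteDimensional ℚ K']
    [FiniteDimensional ℚ F] (hK' : K' ≤ F) [(gal K' F).Normal]
    (h : ∀ (K : IntermediateField ℚ A) [FiniteDimensional ℚ K], K' ≤ K → K ≤ F →
      Hyper ((gal K' K).map (QuotientGroup.mk' (gal K' F))) →
      Beilinson1 X K ∧ Beilinson2 X K) : Beilinson1 X K' ∧ Beilinson2 X K' := by
  classical
  have hG : IsGalois ℚ A := isGalois
  -- the finite quotient
  set E := IntermediateField.normalClosure ℚ F A with hE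
  have hFE : F ≤ E := by
    have h1 := AlgHom.fieldRange_le_normalClosure (F.val : F →ₐ[ℚ] A)
    rwa [IntermediateField.fieldRange_val] at h1
  have hN : E.fixingSubgroup.Normal := by
    have h0 : Normal ℚ A := hG.to_normal
    have h1 : Normal ℚ E := normalClosure.normal ℚ F A
    have h2 : IsGalois ℚ E := ⟨⟩
    exact (InfiniteGalois.normal_iff_isGalois E).2 h2
  have hfi : E.fixingSubgroup.FiniteIndex := by
    refine ⟨?_⟩
    rw [← IntermediateField.finrank_eq_fixingSubgroup_index]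
    exact Module.finrank_pos.ne'
  have hfin : Finite ((A ≃ₐ[ℚ] A) ⧸ E.fixingSubgroup) := inferInstance
  set π := QuotientGroup.mk' E.fixingSubgroup with hπ
  have hsurj : Function.Surjective π := QuotientGroup.mk'_surjective _
  have hker : π.ker = E.fixingSubgroup := QuotientGroup.ker_mk' _
  have hfinite : Helper8K9.DG.IsFinite E π := ⟨E, inferInstance, le_rfl, fun γ hγ => by
    rwa [← MonoidHom.mem_ker, hker]⟩
  have hcm : ∀ L : IntermediateField ℚ A, L ≤ E →
      L.fixingSubgroup = (L.fixingSubgroup.map π).comap π := by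
    intro L hL
    rw [Subgroup.comap_map_eq, hker,
      sup_eq_left.2 (IntermediateField.fixingSubgroup_antitone hL)]
  set U := K'.fixingSubgroup.map π with hU
  set W := F.fixingSubgroup.map π with hW
  have hU' : K'.fixingSubgroup = U.comap π := hcm K' (hK'.trans hFE)
  have hW' : F.fixingSubgroup = W.comap π := hcm F hFE
  have hWU : W ≤ U := Subgroup.map_mono (IntermediateField.fixingSubgroup_antitone hK')
  -- the quotients
  let π' : K'.fixingSubgroup →* U :=
    (π.comp K'.fixingSubgroup.subtype).codRestrict U fun γ => ⟨γ, γ.2, rfl⟩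
  have hnorm : (W.subgroupOf U).Normal := by
    have h1 : W.subgroupOf U = (gal K' F).map π' := by
      ext u
      constructor
      · intro hu
        have hu' := Subgroup.mem_subgroupOf.1 hu
        obtain ⟨γ, hγ, h2⟩ := hu'
        have hγ' : γ ∈ K'.fixingSubgroup := IntermediateField.fixingSubgroup_antitone hK' hγ
        exact ⟨⟨γ, hγ'⟩, hγ, Subtype.ext h2⟩
      · rintro ⟨γ, hγ, rfl⟩
        exact ⟨γ, hγ, rfl⟩
    rw [h1]
    refine Subgroup.Normal.map inferInstance π' ?_
    rintro ⟨_, γ, hγ, rfl⟩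
    exact ⟨⟨γ, hγ⟩, rfl⟩
  have hgal : gal K' F ≤ (W.subgroupOf U).comap π' := by
    intro γ hγ
    exact ⟨γ, hγ, rfl⟩
  let φ : K'.fixingSubgroup ⧸ gal K' F →* U ⧸ W.subgroupOf U :=
    QuotientGroup.map (gal K' F) (W.subgroupOf U) π' hgal
  have hφ : Function.Injective φ := by
    rw [injective_iff_map_eq_one]
    intro x
    obtain ⟨γ, rfl⟩ := QuotientGroup.mk'_surjective (gal K' F) x
    intro hx
    have h1 : (QuotientGroup.mk' (W.subgroupOf U)) (π' γ) = 1 := hx
    have h2 : π' γ ∈ W.subgroupOf U := (QuotientGroup.eq_one_iff _).1 h1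
    have h3 : (γ : A ≃ₐ[ℚ] A) ∈ F.fixingSubgroup := by
      rw [hW']
      exact h2
    exact (QuotientGroup.eq_one_iff _).2 h3
  obtain ⟨B, C, hB, hC, hB0, hC0, hrel⟩ := SP.solomon_rel U W hWU
  have hnice : ∀ V : Subgroup ((A ≃ₐ[ℚ] A) ⧸ E.fixingSubgroup), (W ≤ V ∧ V ≤ U ∧
      Hyper ((V.subgroupOf U).map (QuotientGroup.mk' (W.subgroupOf U)))) →
      BNice (toBK X) (fun γ => ind V (fun _ => (1 : ℚ)) (π γ)) := by
    rintro V ⟨hWV, hVU, hV⟩
    obtain ⟨K, hK, -, hKV⟩ := Helper8K9.DG.cor E _ π hfinite V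
    have h1 : K' ≤ K := by
      rw [← InfiniteGalois.fixedField_fixingSubgroup K',
        ← InfiniteGalois.fixedField_fixingSubgroup K]
      refine IntermediateField.fixedField_antitone ?_
      rw [hKV, hU']
      exact Subgroup.comap_mono hVU
    have h2 : K ≤ F := by
      rw [← InfiniteGalois.fixedField_fixingSubgroup F,
        ← InfiniteGalois.fixedField_fixingSubgroup K]
      refine IntermediateField.fixedField_antitone ?_
      rw [hKV, hW']
      exact Subgroup.comap_mono hWV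
    have h3 : Hyper ((gal K' K).map (QuotientGroup.mk' (gal K' F))) := by
      have h4 : ∀ x : (gal K' K).map (QuotientGroup.mk' (gal K' F)), φ x ∈
          (V.subgroupOf U).map (QuotientGroup.mk' (W.subgroupOf U)) := by
        rintro ⟨_, γ, hγ, rfl⟩
        refine ⟨π' γ, ?_, rfl⟩
        have h5 : (γ : A ≃ₐ[ℚ] A) ∈ K.fixingSubgroup := hγ
        rw [hKV] at h5
        exact h5
      refine Pool.Agent.R389.Hyper.of_injective ((φ.comp (Subgroup.subtype _)).codRestrict _ h4)
        ?_ hV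
      intro x y hxy
      exact Subtype.ext (hφ (congrArg Subtype.val hxy))
    exact ⟨K →ₐ[ℚ] A, inferInstance, inferInstance, permRep K, isFinite_permRep K,
      fun γ => trace_perm hsurj V K hKV γ, (bgood_iff X K).2 (h K h1 h2 h3)⟩
  refine (bgood_iff X K').1 (bgood_of_char (toBK X) (permRep K') (isFinite_permRep K')
    (BNice.list (toBK X) (fun V γ => ind V (fun _ => (1 : ℚ)) (π γ)) B hB0
      fun V hV => hnice V (hB V hV))
    (BNice.list (toBK X) (fun V γ => ind V (fun _ => (1 : ℚ)) (π γ)) C hC0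
      fun V hV => hnice V (hC V hV)) fun γ => ?_)
  rw [trace_perm hsurj _ K' hU' γ]
  exact hrel (π γ)

end Pool.Agent.Helper78K9.BC
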